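import Pool.Agent.Q190.ME.Trans

set_option autoImplicit false

open scoped ENNReal
open Filter Topology

namespace Pool.Agent.Q190.ME

noncomputable section

section abstract

variable {E : Type} [NormedAddCommGroup E] [NormedSpace ℂ E]

lemma pow_formula {A N : E →L[ℂ] E} (hc : Commute A N) (hN : N * N = 0) (n : ℕ) :
    (N - A) ^ (n + 1) = (-A) ^ (n + 1) + (n + 1 : ℂ) • ((-A) ^ n * N) := by
  induction n with
  | zero => simp; abel
  | succ n ih =>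
    have h1 : Commute (-A) N := hc.neg_left
    rw [pow_succ, ih]
    have e1 : N - A = N + (-A) := by abel
    rw [e1, add_mul, mul_add, mul_add, smul_mul_assoc, mul_assoc, hN, mul_zero, smul_zero,
      zero_add, smul_mul_assoc, mul_assoc, ← h1.eq, ← mul_assoc, ← pow_succ, ← pow_succ]
    push_cast
    module

/-- Mean ergodicity of `N - A`. -/
theorem mean_ergodic {A N : E →L[ℂ] E} (hc : Commute A N) (hN : N * N = 0)
    (hA : ∀ n, ‖A ^ n‖ ≤ 1) (hs : ∀ x, Tendsto (fun n : ℕ => (A ^ n) x) atTop (𝓝 0))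
    (hu : IsUnit (1 + A)) (x : E) :
    Tendsto (fun n : ℕ => (n : ℂ)⁻¹ • ∑ k ∈ Finset.range n, ((N - A) ^ k) x) atTop (𝓝 0) := by
  have hnil : IsNilpotent (-N) := ⟨2, by rw [pow_two, neg_mul_neg, hN]⟩
  have hu2 : IsUnit (1 + A + (-N)) := by
    apply hnil.isUnit_add_left_of_commute hu
    exact (Commute.one_right _).add_right hc.symm.neg_left
  obtain ⟨u, hu3⟩ := hu2
  set y : E := (↑u⁻¹ : E →L[ℂ] E) x with hy
  have hxy : (1 - (N - A)) y = x := by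
    have h1 : (1 - (N - A) : E →L[ℂ] E) = u := by rw [hu3]; abel
    rw [h1, hy, ← mul_apply_eq_comp, Units.mul_inv]
    simp
  have h1 : ∀ n : ℕ, ∑ k ∈ Finset.range n, ((N - A) ^ k) x = y - ((N - A) ^ n) y := by
    intro n
    have h2 := geom_sum_mul_neg (N - A) n
    have h3 := congrArg (fun S : E →L[ℂ] E => S y) h2
    simp only [mul_apply_eq_comp, hxy] at h3
    rw [sum_apply] at h3
    rw [h3]
    simp
  have h2 : ∀ n : ℕ, ‖((n + 1 : ℕ) : ℂ)⁻¹ • ∑ k ∈ Finset.range (n + 1), ((N - A) ^ k) x‖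
      ≤ 2 * ‖y‖ * ((n : ℝ) + 1)⁻¹ + ‖(A ^ n) (N y)‖ := by
    intro n
    rw [h1, pow_formula hc hN, norm_smul]
    have e0 : ‖((n + 1 : ℕ) : ℂ)⁻¹‖ = ((n : ℝ) + 1)⁻¹ := by
      rw [norm_inv, Complex.norm_natCast]; push_cast; rfl
    have e1 : ‖((-A) ^ (n + 1)) y‖ ≤ ‖y‖ := by
      rw [neg_pow]
      have : ‖((-1 : E →L[ℂ] E) ^ (n + 1) * A ^ (n + 1)) y‖ = ‖(A ^ (n + 1)) y‖ := by
        rcases neg_one_pow_eq_or (E →L[ℂ] E) (n + 1) with h | h <;> rw [h] <;> simp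
      rw [this]
      refine ((A ^ (n + 1)).le_opNorm y).trans ?_
      exact mul_le_of_le_one_left (norm_nonneg _) (hA _)
    have e2 : ‖((-A) ^ n * N) y‖ = ‖(A ^ n) (N y)‖ := by
      rw [neg_pow]
      rcases neg_one_pow_eq_or (E →L[ℂ] E) n with h | h <;> rw [h] <;> simp
    have e3 : ‖y - ((-A) ^ (n + 1) + (n + 1 : ℂ) • ((-A) ^ n * N)) y‖
        ≤ 2 * ‖y‖ + ((n : ℝ) + 1) * ‖(A ^ n) (N y)‖ := by
      rw [add_apply, smul_apply]
      have h5 := norm_sub_le y (((-A) ^ (n + 1)) y + (n + 1 : ℂ) • (((-A) ^ n * N) y))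
      have h6 := norm_add_le (((-A) ^ (n + 1)) y) ((n + 1 : ℂ) • (((-A) ^ n * N) y))
      rw [norm_smul, e2] at h6
      have h7 : ‖(n + 1 : ℂ)‖ = (n : ℝ) + 1 := by
        have := Complex.norm_natCast (n + 1)
        push_cast at this
        exact this
      rw [h7] at h6
      linarith
    rw [e0]
    have h8 : (0:ℝ) < (n : ℝ) + 1 := by positivity
    calc ((n : ℝ) + 1)⁻¹ * _ ≤ ((n : ℝ) + 1)⁻¹ * (2 * ‖y‖ + ((n : ℝ) + 1) * ‖(A ^ n) (N y)‖) := by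
          gcongr
      _ = _ := by field_simp
  rw [tendsto_zero_iff_norm_tendsto_zero, ← tendsto_add_atTop_iff_nat 1]
  refine squeeze_zero (fun n => norm_nonneg _) h2 ?_
  have h3 : Tendsto (fun n : ℕ => ((n : ℝ) + 1)⁻¹) atTop (𝓝 0) := by
    have : Tendsto (fun n : ℕ => ((n : ℝ) + 1)) atTop atTop :=
      tendsto_atTop_add_const_right _ _ tendsto_natCast_atTop_atTop
    exact this.inv_tendsto_atTop
  have h4 := (h3.const_mul (2 * ‖y‖)).add (hs (N y)).norm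
  simpa using h4

theorem not_power_bounded {A N : E →L[ℂ] E} (hc : Commute A N) (hN : N * N = 0)
    (hA : ∀ n, ‖A ^ n‖ ≤ 1) {c : ℝ} (hc0 : 0 < c) (hl : ∀ n : ℕ, c ≤ ‖A ^ n * N‖) :
    ¬ ∃ C : ℝ, ∀ n : ℕ, ‖(N - A) ^ n‖ ≤ C := by
  rintro ⟨C, hC⟩
  obtain ⟨n, hn⟩ := exists_nat_gt ((C + 1) / c)
  have h1 := hC (n + 1)
  rw [pow_formula hc hN] at h1
  have e1 : ‖(-A) ^ (n + 1)‖ ≤ 1 := by
    rw [neg_pow]
    rcases neg_one_pow_eq_or (E →L[ℂ] E) (n + 1) with h | h <;> rw [h] <;> simp [hA]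
  have e2 : ‖(-A) ^ n * N‖ = ‖A ^ n * N‖ := by
    rw [neg_pow]
    rcases neg_one_pow_eq_or (E →L[ℂ] E) n with h | h <;> rw [h] <;> simp
  have h7 : ‖(n + 1 : ℂ)‖ = (n : ℝ) + 1 := by
    have := Complex.norm_natCast (n + 1)
    push_cast at this
    exact this
  have h2 : ((n : ℝ) + 1) * ‖A ^ n * N‖ ≤ C + 1 := by
    have h3 : ‖(n + 1 : ℂ) • ((-A) ^ n * N)‖ ≤ ‖(-A) ^ (n + 1) + (n + 1 : ℂ) • ((-A) ^ n * N)‖
        + ‖(-A) ^ (n + 1)‖ := by
      have := norm_sub_le ((-A) ^ (n + 1) + (n + 1 : ℂ) • ((-A) ^ n * N)) ((-A) ^ (n + 1))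
      rwa [add_sub_cancel_left] at this
    rw [norm_smul, h7, e2] at h3
    linarith
  have h3 := hl n
  rw [div_lt_iff₀ hc0] at hn
  have h4 : (n : ℝ) * c ≤ ((n : ℝ) + 1) * ‖A ^ n * N‖ := by
    have : (0:ℝ) ≤ n := Nat.cast_nonneg n
    nlinarith
  linarith

end abstract

section unit

variable {G : Type} [Group G] {p : ℝ≥0∞} [Fact (1 ≤ p)]

lemma isUnit_one_add_av (hp0 : 0 < p.toReal) (z : G) : IsUnit (1 + av (p := p) hp0 z) := by
  have h1 : ‖(-(1/3 : ℂ)) • Lop (p := p) hp0 z‖ < 1 := by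
    rw [norm_smul]
    have h2 := norm_Lop_le (p := p) hp0 z
    have h3 : ‖(-(1/3 : ℂ))‖ = 1/3 := by
      rw [norm_neg]; norm_num
    rw [h3]
    have := norm_nonneg (Lop (p := p) hp0 z)
    linarith
  have h2 : IsUnit (1 - (-(1/3 : ℂ)) • Lop (p := p) hp0 z) := isUnit_one_sub_of_norm_lt_one h1
  have h3 : 1 + av (p := p) hp0 z
      = algebraMap ℂ (X G p →L[ℂ] X G p) (3/2) * (1 - (-(1/3 : ℂ)) • Lop (p := p) hp0 z) := by
    unfold av
    rw [← Algebra.smul_def, smul_sub, smul_smul, smul_add]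
    have e1 : (3/2 : ℂ) • (1 : X G p →L[ℂ] X G p) = 1 + (1/2 : ℂ) • 1 := by
      rw [← one_smul ℂ (1 : X G p →L[ℂ] X G p), smul_smul, smul_smul, ← add_smul]
      norm_num
    rw [e1]
    have e2 : (3/2 : ℂ) * (-(1/3)) = -(1/2) := by norm_num
    rw [e2, neg_smul]
    abel
  rw [h3]
  refine IsUnit.mul ?_ h2
  exact (IsUnit.mk0 (3/2 : ℂ) (by norm_num)).map _

end unit

end

end Pool.Agent.Q190.ME
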