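import Pool.Agent.Q190.ME.Abs

set_option autoImplicit false

open scoped ENNReal
open Filter Topology

namespace Pool.Agent.Q190.ME

noncomputable section

/-- the group `ℤ × S₃` -/
abbrev GG := Multiplicative ℤ × Equiv.Perm (Fin 3)

/-- generator of `ℤ` -/
def zz : GG := (Multiplicative.ofAdd 1, 1)
/-- transposition -/
def ss : GG := (1, Equiv.swap 0 1)
/-- transposition -/
def tt : GG := (1, Equiv.swap 1 2)

lemma zz_pow (k : ℕ) : zz ^ k = (Multiplicative.ofAdd (k : ℤ), 1) := by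
  unfold zz
  rw [Prod.pow_mk, one_pow, ← ofAdd_nsmul]
  simp

lemma zz_ne (k : ℕ) : zz ^ (k + 1) ≠ 1 := by
  rw [zz_pow]
  intro h
  have h1 := congrArg Prod.fst h
  simp only [Prod.fst_one, ofAdd_eq_one] at h1
  omega

lemma zz_inj : Function.Injective (fun k : ℕ => zz ^ k) := by
  intro i j h
  simp only [zz_pow, Prod.mk.injEq, and_true] at h
  have := Multiplicative.ofAdd.injective h
  exact_mod_cast this

lemma zz_comm (g : GG) : Commute zz g := by
  show zz * g = g * zz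
  unfold zz
  ext
  · simp [mul_comm]
  · simp

lemma ss_sq : ss * ss = 1 := by
  unfold ss
  rw [Prod.mk_mul_mk, Equiv.swap_mul_self]; simp

variable {p : ℝ≥0∞} [Fact (1 ≤ p)] (hp0 : 0 < p.toReal)

/-- the nilpotent element -/
def NN : X GG p →L[ℂ] X GG p :=
  (1 - Lop hp0 ss) * Lop hp0 tt * (1 + Lop hp0 ss)

lemma NN_sq : NN (p := p) hp0 * NN hp0 = 0 := by
  unfold NN
  have h1 : Lop (p := p) hp0 ss * Lop hp0 ss = 1 := by rw [← Lop_mul, ss_sq, Lop_one]
  have h2 : (1 + Lop (p := p) hp0 ss) * (1 - Lop hp0 ss) = 0 := by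
    rw [add_mul, mul_sub, mul_sub, h1]; simp
  calc (1 - Lop (p := p) hp0 ss) * Lop hp0 tt * (1 + Lop hp0 ss)
        * ((1 - Lop hp0 ss) * Lop hp0 tt * (1 + Lop hp0 ss))
      = (1 - Lop (p := p) hp0 ss) * Lop hp0 tt * ((1 + Lop hp0 ss) * (1 - Lop hp0 ss))
        * (Lop hp0 tt * (1 + Lop hp0 ss)) := by simp only [mul_assoc]
    _ = 0 := by rw [h2]; simp

lemma NN_comm : Commute (av (p := p) hp0 zz) (NN hp0) := by
  have h : ∀ g : GG, Commute (av (p := p) hp0 zz) (Lop hp0 g) := by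
    intro g
    unfold av
    exact ((Commute.one_left _).add_left (Lop_comm hp0 (zz_comm g))).smul_left _
  unfold NN
  exact (((Commute.one_right _).sub_right (h ss)).mul_right (h tt)).mul_right
    ((Commute.one_right _).add_right (h ss))

lemma NN_apply (f : X GG p) (x : GG) :
    NN hp0 f x = f (tt⁻¹ * x) + f ((tt * ss)⁻¹ * x) - f ((ss * tt)⁻¹ * x)
      - f ((ss * tt * ss)⁻¹ * x) := by
  have h : NN (p := p) hp0 = Lop hp0 tt + Lop hp0 (tt * ss) - Lop hp0 (ss * tt)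
      - Lop hp0 (ss * tt * ss) := by
    unfold NN
    rw [Lop_mul, Lop_mul, Lop_mul, Lop_mul]
    noncomm_ring
  rw [h]
  rfl

/-- Følner vectors -/
def xv (M : ℕ) : X GG p := ∑ j ∈ Finset.range M, lp.single p (zz ^ j) (1:ℂ)

include hp0 in
lemma xv_norm (M : ℕ) : ‖xv (p := p) M‖ ^ p.toReal = M := by
  have h := lp.norm_sum_single (p := p) hp0 (fun _ : GG => (1:ℂ))
    ((Finset.range M).image (fun k : ℕ => zz ^ k))
  rw [Finset.sum_image (fun i _ j _ h => zz_inj h)] at h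
  rw [Finset.sum_const, Finset.card_image_of_injective _ zz_inj, Finset.card_range, norm_one,
    Real.one_rpow, nsmul_eq_mul, mul_one] at h
  exact h

lemma xv_apply_ne (M : ℕ) (y : GG) (hy : y.2 ≠ 1) : xv (p := p) M y = 0 := by
  unfold xv
  rw [lp.coeFn_sum, Finset.sum_apply]
  apply Finset.sum_eq_zero
  intro j _
  rw [lp.single_apply_ne]
  intro h
  apply hy
  rw [h, zz_pow]

lemma xv_apply (M i : ℕ) (hi : i < M) : xv (p := p) M (zz ^ i) = 1 := by
  unfold xv
  rw [lp.coeFn_sum, Finset.sum_apply, Finset.sum_eq_single i]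
  · rw [lp.single_apply_self]
  · intro j _ hj
    rw [lp.single_apply_ne]
    intro h
    exact hj (zz_inj h).symm
  · intro h; exact absurd (Finset.mem_range.2 hi) h

lemma NN_xv (M i : ℕ) (hi : i < M) : NN hp0 (xv (p := p) M) (zz ^ i * tt) = 1 := by
  rw [NN_apply]
  have h1 : tt⁻¹ * (zz ^ i * tt) = zz ^ i := by
    rw [((zz_comm tt).pow_left i).eq, inv_mul_cancel_left]
  rw [h1, xv_apply M i hi, xv_apply_ne, xv_apply_ne, xv_apply_ne]
  · simp
  · simp only [Prod.snd_mul, Prod.snd_inv, zz_pow, ss, tt]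
    decide
  · simp only [Prod.snd_mul, Prod.snd_inv, zz_pow, ss, tt]
    decide
  · simp only [Prod.snd_mul, Prod.snd_inv, zz_pow, ss, tt]
    decide

lemma NN_xv_norm (M : ℕ) : (M : ℝ) ≤ ‖NN hp0 (xv (p := p) M)‖ ^ p.toReal := by
  classical
  have h := lp.sum_rpow_le_norm_rpow hp0 (NN hp0 (xv (p := p) M))
    ((Finset.range M).image (fun k : ℕ => zz ^ k * tt))
  refine le_trans ?_ h
  rw [Finset.sum_image (fun i _ j _ h => zz_inj (mul_right_cancel h))]
  rw [Finset.sum_congr rfl fun i hi => by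
    rw [NN_xv hp0 M i (Finset.mem_range.1 hi)]]
  simp

lemma Lop_xv (M : ℕ) : ‖Lop hp0 zz (xv (p := p) M) - xv M‖ ≤ 2 := by
  have h1 : Lop hp0 zz (xv (p := p) M) - xv M
      = lp.single p (zz ^ M) (1:ℂ) - lp.single p (zz ^ 0) (1:ℂ) := by
    unfold xv
    rw [map_sum, ← Finset.sum_sub_distrib, ← Finset.sum_range_sub
      (fun j => (lp.single p (zz ^ j) (1:ℂ) : X GG p)) M]
    refine Finset.sum_congr rfl fun j _ => ?_
    have h2 := Lop_single (p := p) hp0 zz (zz ^ j) (1:ℂ)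
    rw [pow_succ']
    rw [h2]
  have hp : 0 < p := by
    rcases eq_or_ne p 0 with h | h
    · rw [h] at hp0; simp at hp0
    · exact pos_iff_ne_zero.2 h
  rw [h1]
  refine (norm_sub_le _ _).trans ?_
  rw [lp.norm_single hp, lp.norm_single hp]
  norm_num

lemma av_xv (M n : ℕ) : ‖((av (p := p) hp0 zz) ^ n) (xv M) - xv M‖ ≤ n := by
  induction n with
  | zero => simp
  | succ n ih =>
    have h1 : ‖av (p := p) hp0 zz (xv M) - xv M‖ ≤ 1 := by
      have h2 : av (p := p) hp0 zz (xv M) - xv M = (1/2 : ℂ) • (Lop hp0 zz (xv M) - xv M) := by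
        unfold av
        rw [smul_apply, add_apply, one_apply_eq_self]
        module
      rw [h2, norm_smul]
      have h3 := Lop_xv (p := p) hp0 M
      have h4 : ‖(1/2 : ℂ)‖ = 1/2 := by norm_num
      rw [h4]; linarith
    have h2 : ((av (p := p) hp0 zz) ^ (n + 1)) (xv M) - xv M
        = ((av (p := p) hp0 zz) ^ n) (av (p := p) hp0 zz (xv M) - xv M)
          + (((av (p := p) hp0 zz) ^ n) (xv M) - xv M) := by
      rw [pow_succ, mul_apply_eq_comp, map_sub]; abel
    rw [h2]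
    refine (norm_add_le _ _).trans ?_
    have h3 : ‖((av (p := p) hp0 zz) ^ n) (av (p := p) hp0 zz (xv M) - xv M)‖ ≤ 1 := by
      refine (ContinuousLinearMap.le_opNorm _ _).trans ?_
      exact mul_le_one₀ (norm_av_pow_le hp0 zz n) (norm_nonneg _) h1
    have h4 : ((n + 1 : ℕ) : ℝ) = n + 1 := by push_cast; rfl
    rw [h4]
    linarith

lemma lower (n : ℕ) : 1 ≤ ‖(av (p := p) hp0 zz) ^ n * NN hp0‖ := by
  by_contra hcon
  push Not at hcon
  set δ : ℝ := 1 - ‖(av (p := p) hp0 zz) ^ n * NN hp0‖ with hδ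
  have hδ0 : 0 < δ := by linarith
  have h1 : ∀ M : ℕ, δ * (M : ℝ) ^ (1 / p.toReal) ≤ ‖NN (p := p) hp0‖ * n := by
    intro M
    have hM : (M : ℝ) ^ (1 / p.toReal) = ‖xv (p := p) M‖ := by
      rw [← xv_norm hp0, ← Real.rpow_mul (norm_nonneg _), mul_one_div_cancel hp0.ne',
        Real.rpow_one]
    have h2 : (M : ℝ) ^ (1 / p.toReal) ≤ ‖NN hp0 (xv (p := p) M)‖ := by
      calc (M : ℝ) ^ (1 / p.toReal) ≤ (‖NN hp0 (xv (p := p) M)‖ ^ p.toReal) ^ (1 / p.toReal) :=
            Real.rpow_le_rpow (Nat.cast_nonneg _) (NN_xv_norm hp0 M) (by positivity)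
        _ = _ := by
          rw [← Real.rpow_mul (norm_nonneg _), mul_one_div_cancel hp0.ne', Real.rpow_one]
    have h3 : NN hp0 (xv (p := p) M) = ((av (p := p) hp0 zz) ^ n * NN hp0) (xv M)
        - NN hp0 (((av (p := p) hp0 zz) ^ n) (xv M) - xv M) := by
      have hc : (av (p := p) hp0 zz) ^ n * NN hp0 = NN hp0 * (av (p := p) hp0 zz) ^ n :=
        ((NN_comm hp0).pow_left n).eq
      rw [hc, mul_apply_eq_comp, map_sub]; abel
    have h4 : ‖NN hp0 (xv (p := p) M)‖ ≤ ‖(av (p := p) hp0 zz) ^ n * NN hp0‖ * ‖xv (p := p) M‖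
        + ‖NN (p := p) hp0‖ * n := by
      rw [h3]
      refine (norm_sub_le _ _).trans (add_le_add (ContinuousLinearMap.le_opNorm _ _) ?_)
      refine (ContinuousLinearMap.le_opNorm _ _).trans ?_
      exact mul_le_mul_of_nonneg_left (av_xv hp0 M n) (norm_nonneg _)
    rw [← hM] at h4
    have h5 := h2.trans h4
    rw [hδ]
    linarith
  have h2 : Tendsto (fun M : ℕ => δ * (M : ℝ) ^ (1 / p.toReal)) atTop atTop := by
    apply Tendsto.const_mul_atTop hδ0
    exact (tendsto_rpow_atTop (by positivity)).comp tendsto_natCast_atTop_atTop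
  obtain ⟨M, hM⟩ := (h2.eventually (eventually_gt_atTop (‖NN (p := p) hp0‖ * n))).exists
  exact absurd (h1 M) (not_le.2 hM)

/-- the operator -/
def TT : X GG p →L[ℂ] X GG p := NN hp0 - av hp0 zz

theorem TT_mean_ergodic (hp1 : 1 < p.toReal) (hpt : p ≠ ∞) (x : X GG p) :
    Tendsto (fun n : ℕ => (n : ℂ)⁻¹ • ∑ k ∈ Finset.range n, ((TT hp0) ^ k) x) atTop (𝓝 0) :=
  mean_ergodic (NN_comm hp0) (NN_sq hp0) (norm_av_pow_le hp0 zz)
    (fun x => av_pow_tendsto zz_ne hp1 hpt x) (isUnit_one_add_av hp0 zz) x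

theorem TT_not_power_bounded : ¬ ∃ C : ℝ, ∀ n : ℕ, ‖(TT (p := p) hp0) ^ n‖ ≤ C :=
  not_power_bounded (NN_comm hp0) (NN_sq hp0) (norm_av_pow_le hp0 zz) one_pos (lower hp0)

/-- the measure -/
def mm : GG →₀ ℂ :=
  Finsupp.single tt 1 + Finsupp.single (tt * ss) 1 - Finsupp.single (ss * tt) 1
    - Finsupp.single (ss * tt * ss) 1 - Finsupp.single 1 (1/2) - Finsupp.single zz (1/2)

theorem TT_conv (f : X GG p) (x : GG) :
    TT hp0 f x = mm.sum fun y c => c * f (y⁻¹ * x) := by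
  have h : (mm.sum fun y c => c * f (y⁻¹ * x))
      = Finsupp.linearCombination ℂ (fun y : GG => f (y⁻¹ * x)) mm := by
    rw [Finsupp.linearCombination_apply]; rfl
  rw [h]
  unfold mm
  simp only [map_sub, map_add, Finsupp.linearCombination_single]
  have h2 : TT hp0 f x = NN hp0 f x - (1/2 : ℂ) * (f x + f (zz⁻¹ * x)) := rfl
  rw [h2, NN_apply]
  simp only [smul_eq_mul, inv_one, one_mul]
  ring

end

end Pool.Agent.Q190.ME
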