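import Mathlib

set_option autoImplicit false

open scoped ENNReal
open Filter Topology

namespace Pool.Agent.Q190.ME

noncomputable section

variable {G : Type} [Group G] {p : ℝ≥0∞}

/-- `ℓ^p(G)` -/
abbrev X (G : Type) (p : ℝ≥0∞) := lp (fun _ : G => ℂ) p

lemma mem_trans (hp0 : 0 < p.toReal) (g : G) (f : X G p) :
    Memℓp (fun x => f (g⁻¹ * x)) p := by
  rw [memℓp_gen_iff hp0]
  have h := (lp.memℓp f).summable hp0
  exact (Equiv.mulLeft g⁻¹).summable_iff.2 h

/-- translation -/
def tr (hp0 : 0 < p.toReal) (g : G) (f : X G p) : X G p := ⟨fun x => f (g⁻¹ * x), mem_trans hp0 g f⟩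

lemma tr_apply (hp0 : 0 < p.toReal) (g : G) (f : X G p) (x : G) : tr hp0 g f x = f (g⁻¹ * x) := rfl

lemma norm_tr (hp0 : 0 < p.toReal) (g : G) (f : X G p) : ‖tr hp0 g f‖ = ‖f‖ := by
  rw [lp.norm_eq_tsum_rpow hp0, lp.norm_eq_tsum_rpow hp0]
  congr 1
  exact (Equiv.mulLeft g⁻¹).tsum_eq (fun x => ‖f x‖ ^ p.toReal)

variable [Fact (1 ≤ p)]

/-- translation operator -/
def Lop (hp0 : 0 < p.toReal) (g : G) : X G p →L[ℂ] X G p :=
  LinearMap.mkContinuous
    { toFun := tr hp0 g
      map_add' := fun f h => by ext x; rfl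
      map_smul' := fun c f => by ext x; rfl } 1 (fun f => by
        rw [one_mul]; exact (norm_tr hp0 g f).le)

lemma Lop_apply (hp0 : 0 < p.toReal) (g : G) (f : X G p) (x : G) :
    Lop hp0 g f x = f (g⁻¹ * x) := rfl

lemma norm_Lop_apply (hp0 : 0 < p.toReal) (g : G) (f : X G p) : ‖Lop hp0 g f‖ = ‖f‖ :=
  norm_tr hp0 g f

lemma norm_Lop_le (hp0 : 0 < p.toReal) (g : G) : ‖Lop (p := p) hp0 g‖ ≤ 1 :=
  LinearMap.mkContinuous_norm_le _ zero_le_one _

lemma Lop_mul (hp0 : 0 < p.toReal) (g h : G) :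
    Lop (p := p) hp0 (g * h) = Lop hp0 g * Lop hp0 h := by
  ext f x
  rw [mul_apply_eq_comp, Lop_apply, Lop_apply, Lop_apply, mul_inv_rev, mul_assoc]

lemma Lop_one (hp0 : 0 < p.toReal) : Lop (p := p) hp0 (1 : G) = 1 := by
  ext f x
  rw [Lop_apply]; simp

lemma Lop_comm (hp0 : 0 < p.toReal) {g h : G} (hc : Commute g h) :
    Commute (Lop (p := p) hp0 g) (Lop hp0 h) := by
  show _ * _ = _ * _
  rw [← Lop_mul, ← Lop_mul, hc.eq]

lemma Lop_single [DecidableEq G] (hp0 : 0 < p.toReal) (g h : G) (c : ℂ) :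
    Lop (p := p) hp0 g (lp.single p h c) = lp.single p (g * h) c := by
  ext x
  rw [Lop_apply]
  by_cases hx : x = g * h
  · subst hx
    rw [inv_mul_cancel_left, lp.single_apply_self, lp.single_apply_self]
  · rw [lp.single_apply_ne, lp.single_apply_ne]
    · exact hx
    · intro h1; apply hx; rw [← h1, mul_inv_cancel_left]

/-- averaging operator -/
def av (hp0 : 0 < p.toReal) (z : G) : X G p →L[ℂ] X G p := (1/2 : ℂ) • (1 + Lop hp0 z)

lemma norm_av_le (hp0 : 0 < p.toReal) (z : G) : ‖av (p := p) hp0 z‖ ≤ 1 := by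
  unfold av
  have h1 : ‖(1 : X G p →L[ℂ] X G p)‖ ≤ 1 := ContinuousLinearMap.norm_id_le
  calc _ ≤ ‖(1/2 : ℂ)‖ * ‖(1 : X G p →L[ℂ] X G p) + Lop hp0 z‖ := norm_smul_le _ _
    _ ≤ (1/2) * (1 + 1) := by
      have h2 := norm_add_le (1 : X G p →L[ℂ] X G p) (Lop hp0 z)
      have h3 := norm_Lop_le (p := p) hp0 z
      have h4 : ‖(1/2 : ℂ)‖ = 1/2 := by norm_num
      rw [h4]
      have : ‖(1 : X G p →L[ℂ] X G p) + Lop hp0 z‖ ≤ 1 + 1 := by linarith
      linarith
    _ = 1 := by norm_num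

lemma norm_av_pow_le (hp0 : 0 < p.toReal) (z : G) (n : ℕ) : ‖(av (p := p) hp0 z) ^ n‖ ≤ 1 := by
  induction n with
  | zero => rw [pow_zero]; exact ContinuousLinearMap.norm_id_le
  | succ n ih =>
    rw [pow_succ]
    refine (norm_mul_le _ _).trans ?_
    exact mul_le_one₀ ih (norm_nonneg _) (norm_av_le hp0 z)

lemma central_sq (n : ℕ) : (n.centralBinom) ^ 2 * (2 * n + 1) ≤ 16 ^ n := by
  induction n with
  | zero => simp
  | succ n ih =>
    have h := Nat.succ_mul_centralBinom_succ n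
    have h1 : (n + 1) ^ 2 * ((n + 1).centralBinom ^ 2 * (2 * (n + 1) + 1))
        = 4 * ((2 * n + 1) * (2 * n + 3)) * (n.centralBinom ^ 2 * (2 * n + 1)) := by
      calc (n + 1) ^ 2 * ((n + 1).centralBinom ^ 2 * (2 * (n + 1) + 1))
          = ((n + 1) * (n + 1).centralBinom) ^ 2 * (2 * (n + 1) + 1) := by ring
        _ = (2 * (2 * n + 1) * n.centralBinom) ^ 2 * (2 * (n + 1) + 1) := by rw [h]
        _ = _ := by ring
    have h2 : 4 * ((2 * n + 1) * (2 * n + 3)) ≤ 16 * (n + 1) ^ 2 := by nlinarith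
    have h3 : (n + 1) ^ 2 * ((n + 1).centralBinom ^ 2 * (2 * (n + 1) + 1))
        ≤ (n + 1) ^ 2 * 16 ^ (n + 1) := by
      rw [h1]
      calc _ ≤ 16 * (n + 1) ^ 2 * 16 ^ n := Nat.mul_le_mul h2 ih
        _ = _ := by ring
    exact Nat.le_of_mul_le_mul_left h3 (by positivity)

/-- normalized binomial coefficients -/
def bc (n k : ℕ) : ℝ := (n.choose k : ℝ) / 2 ^ n

lemma bc_nonneg (n k : ℕ) : 0 ≤ bc n k := by unfold bc; positivity

lemma bc_pow4 (n k : ℕ) : bc n k ^ 4 * (2 * n + 1) ≤ 1 := by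
  have h1 : (n.choose k) ^ 2 ≤ n.centralBinom := by
    rw [Nat.centralBinom_eq_two_mul_choose, ← Nat.sum_range_choose_sq]
    by_cases hk : k ∈ Finset.range (n + 1)
    · exact Finset.single_le_sum (f := fun i => (n.choose i) ^ 2) (fun i _ => Nat.zero_le _) hk
    · rw [Finset.mem_range, not_lt] at hk
      rw [Nat.choose_eq_zero_of_lt (by omega)]
      simp
  have h2 : (n.choose k) ^ 4 * (2 * n + 1) ≤ 16 ^ n := by
    calc (n.choose k) ^ 4 * (2 * n + 1) = ((n.choose k) ^ 2) ^ 2 * (2 * n + 1) := by ring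
      _ ≤ (n.centralBinom) ^ 2 * (2 * n + 1) := by gcongr
      _ ≤ _ := central_sq n
  unfold bc
  have h3 : ((n.choose k : ℝ)) ^ 4 * (2 * n + 1) ≤ 16 ^ n := by exact_mod_cast h2
  rw [div_pow, ← pow_mul, mul_comm n 4, pow_mul]
  norm_num
  rw [div_mul_eq_mul_div, div_le_one (by positivity)]
  exact h3

lemma bc_le (n k : ℕ) : bc n k ≤ (1 / (2 * n + 1 : ℝ)) ^ (1/4 : ℝ) := by
  have h := bc_pow4 n k
  have h0 := bc_nonneg n k
  have h1 : bc n k ^ 4 ≤ 1 / (2 * n + 1 : ℝ) := by
    rw [le_div_iff₀ (by positivity)]; exact h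
  calc bc n k = (bc n k ^ 4) ^ (1/4 : ℝ) := by
        rw [← Real.rpow_natCast, ← Real.rpow_mul h0]; norm_num
    _ ≤ _ := Real.rpow_le_rpow (by positivity) h1 (by norm_num)

lemma bc_sum (n : ℕ) : ∑ k ∈ Finset.range (n + 1), bc n k = 1 := by
  unfold bc
  rw [← Finset.sum_div]
  have := Nat.sum_range_choose n
  have h : ∑ k ∈ Finset.range (n + 1), (n.choose k : ℝ) = 2 ^ n := by exact_mod_cast this
  rw [h, div_self (by positivity)]

variable {z : G} (hz : ∀ k : ℕ, z ^ (k + 1) ≠ 1)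

include hz in
lemma orbit_inj (g : G) : Function.Injective (fun k : ℕ => z ^ k * g) := by
  intro i j h
  have h1 : z ^ i = z ^ j := mul_right_cancel h
  by_contra hne
  rcases lt_or_gt_of_ne hne with h2 | h2
  · obtain ⟨k, hk⟩ := Nat.exists_eq_add_of_lt h2
    rw [hk, add_assoc, pow_add] at h1
    exact hz k (mul_left_cancel ((mul_one _).trans h1)).symm
  · obtain ⟨k, hk⟩ := Nat.exists_eq_add_of_lt h2
    rw [hk, add_assoc, pow_add] at h1
    exact hz k (mul_left_cancel ((mul_one _).trans h1.symm)).symm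

open Classical in
include hz in
lemma av_pow_single (hp0 : 0 < p.toReal) (g : G) (n : ℕ) :
    (∀ k, ((av (p := p) hp0 z) ^ n) (lp.single p g (1:ℂ)) (z ^ k * g) = (bc n k : ℂ)) ∧
    (∀ x, (∀ k : ℕ, x ≠ z ^ k * g) → ((av (p := p) hp0 z) ^ n) (lp.single p g (1:ℂ)) x = 0) := by
  induction n with
  | zero =>
    constructor
    · intro k
      rw [pow_zero, one_apply_eq_self]
      rcases Nat.eq_zero_or_pos k with h | h
      · subst h
        rw [pow_zero, one_mul, lp.single_apply_self]; simp [bc]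
      · rw [lp.single_apply_ne]
        · unfold bc
          rw [Nat.choose_eq_zero_of_lt h]; simp
        · intro h1
          have h2 : z ^ k = 1 := mul_right_cancel (h1.trans (one_mul g).symm)
          obtain ⟨m, rfl⟩ := Nat.exists_eq_add_of_lt h
          exact hz m (by rw [zero_add] at h2; exact h2)
    · intro x hx
      rw [pow_zero, one_apply_eq_self, lp.single_apply_ne]
      have := hx 0
      simpa using this
  | succ n ih =>
    have e : ∀ x, ((av (p := p) hp0 z) ^ (n + 1)) (lp.single p g (1:ℂ)) x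
        = (1/2 : ℂ) * (((av (p := p) hp0 z) ^ n) (lp.single p g (1:ℂ)) x
          + ((av (p := p) hp0 z) ^ n) (lp.single p g (1:ℂ)) (z⁻¹ * x)) := by
      intro x
      rw [pow_succ', mul_apply_eq_comp]
      rfl
    constructor
    · intro k
      rw [e, ih.1 k]
      rcases Nat.eq_zero_or_pos k with h | h
      · subst h
        rw [ih.2 (z⁻¹ * (z ^ 0 * g))]
        · unfold bc
          simp only [Nat.choose_zero_right]
          push_cast
          rw [pow_succ]
          ring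
        · intro m h1
          rw [pow_zero, one_mul] at h1
          have h2 : z⁻¹ = z ^ m := mul_right_cancel h1
          apply hz m
          rw [pow_succ', ← h2, mul_inv_cancel]
      · obtain ⟨m, rfl⟩ : ∃ m, k = m + 1 := ⟨k - 1, by omega⟩
        have h1 : z⁻¹ * (z ^ (m + 1) * g) = z ^ m * g := by
          rw [pow_succ', mul_assoc, inv_mul_cancel_left]
        rw [h1, ih.1 m]
        unfold bc
        rw [Nat.choose_succ_succ n m]
        push_cast
        rw [pow_succ]
        field_simp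
        ring
    · intro x hx
      rw [e, ih.2 x hx, ih.2 (z⁻¹ * x)]
      · simp
      · intro k h1
        apply hx (k + 1)
        rw [pow_succ', mul_assoc, ← h1, mul_inv_cancel_left]

open Classical in
include hz in
lemma norm_av_pow_single (hp1 : 1 < p.toReal) (g : G) (n : ℕ) :
    ‖((av (p := p) (by linarith) z) ^ n) (lp.single p g (1:ℂ))‖ ^ p.toReal
      ≤ ((1 / (2 * n + 1 : ℝ)) ^ (1/4 : ℝ)) ^ (p.toReal - 1) := by
  have hp0 : 0 < p.toReal := by linarith
  rw [lp.norm_rpow_eq_tsum hp0]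
  obtain ⟨h1, h2⟩ := av_pow_single hz hp0 g n
  have h3 : ∑' x, ‖((av (p := p) hp0 z) ^ n) (lp.single p g (1:ℂ)) x‖ ^ p.toReal
      = ∑' k : ℕ, bc n k ^ p.toReal := by
    rw [← (orbit_inj hz g).tsum_eq]
    · refine tsum_congr fun k => ?_
      simp only
      rw [h1 k, Complex.norm_real, Real.norm_of_nonneg (bc_nonneg n k)]
    · intro x hx
      rw [Function.mem_support] at hx
      by_contra hne
      apply hx
      rw [h2 x]
      · rw [norm_zero, Real.zero_rpow hp0.ne']
      · intro k hk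
        exact hne ⟨k, hk.symm⟩
  rw [h3, tsum_eq_sum (s := Finset.range (n + 1))]
  · calc ∑ k ∈ Finset.range (n + 1), bc n k ^ p.toReal
        ≤ ∑ k ∈ Finset.range (n + 1),
          ((1 / (2 * n + 1 : ℝ)) ^ (1/4 : ℝ)) ^ (p.toReal - 1) * bc n k := by
          refine Finset.sum_le_sum fun k _ => ?_
          have h0 := bc_nonneg n k
          rcases h0.eq_or_lt with h4 | h4
          · rw [← h4, Real.zero_rpow hp0.ne', mul_zero]
          · have h5 : bc n k ^ p.toReal = bc n k ^ (p.toReal - 1) * bc n k := by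
              rw [← Real.rpow_add_one h4.ne']; congr 1; ring
            rw [h5]
            apply mul_le_mul_of_nonneg_right _ h0
            exact Real.rpow_le_rpow h0 (bc_le n k) (by linarith)
      _ = _ := by rw [← Finset.mul_sum, bc_sum, mul_one]
  · intro k hk
    rw [Finset.mem_range, not_lt] at hk
    unfold bc
    rw [Nat.choose_eq_zero_of_lt (by omega)]
    simp [Real.zero_rpow hp0.ne']

open Classical in
include hz in
/-- `a^n → 0` strongly on `ℓ^p(G)`, `1 < p < ∞`. -/
theorem av_pow_tendsto (hp1 : 1 < p.toReal) (hpt : p ≠ ∞) (f : X G p) :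
    Tendsto (fun n : ℕ => ((av (p := p) (by linarith) z) ^ n) f) atTop (𝓝 0) := by
  have hp0 : 0 < p.toReal := by linarith
  -- singles
  have hs : ∀ g : G, Tendsto (fun n : ℕ => ((av (p := p) hp0 z) ^ n) (lp.single p g (1:ℂ)))
      atTop (𝓝 0) := by
    intro g
    rw [tendsto_zero_iff_norm_tendsto_zero]
    have h1 : Tendsto (fun n : ℕ => (((1 / (2 * n + 1 : ℝ)) ^ (1/4 : ℝ)) ^ (p.toReal - 1))
        ^ (1 / p.toReal)) atTop (𝓝 0) := by
      have h2 : Tendsto (fun n : ℕ => (1 / (2 * n + 1 : ℝ))) atTop (𝓝 0) := by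
        have : Tendsto (fun n : ℕ => (2 * n + 1 : ℝ)) atTop atTop := by
          apply tendsto_atTop_add_const_right
          exact Tendsto.const_mul_atTop (by norm_num) tendsto_natCast_atTop_atTop
        refine this.inv_tendsto_atTop.congr fun n => ?_
        simp
      have h3 := h2.rpow_const (p := (1/4 : ℝ)) (Or.inr (by norm_num))
      rw [Real.zero_rpow (by norm_num)] at h3
      have h4 := h3.rpow_const (p := p.toReal - 1) (Or.inr (by linarith))
      rw [Real.zero_rpow (by linarith)] at h4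
      have h5 := h4.rpow_const (p := 1 / p.toReal) (Or.inr (by positivity))
      rw [Real.zero_rpow (by positivity)] at h5
      exact h5
    refine squeeze_zero (fun n => norm_nonneg _) (fun n => ?_) h1
    have h2 := norm_av_pow_single hz hp1 g n
    calc ‖((av (p := p) hp0 z) ^ n) (lp.single p g (1:ℂ))‖
        = (‖((av (p := p) hp0 z) ^ n) (lp.single p g (1:ℂ))‖ ^ p.toReal) ^ (1 / p.toReal) := by
          rw [← Real.rpow_mul (norm_nonneg _), mul_one_div_cancel hp0.ne', Real.rpow_one]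
      _ ≤ _ := Real.rpow_le_rpow (by positivity) h2 (by positivity)
  -- the set of good vectors is a closed submodule
  rw [Metric.tendsto_atTop]
  intro ε hε
  -- approximate f by a finite sum
  have hf := lp.hasSum_single hpt f
  obtain ⟨s, hs1⟩ := ((Metric.tendsto_atTop.1 hf) (ε / 2) (by positivity))
  have hs2 := hs1 s (le_refl _)
  have h3 : Tendsto (fun n : ℕ => ((av (p := p) hp0 z) ^ n) (∑ i ∈ s, lp.single p i (f i)))
      atTop (𝓝 0) := by
    simp_rw [map_sum]
    have : Tendsto (fun n : ℕ => ∑ i ∈ s, ((av (p := p) hp0 z) ^ n) (lp.single p i (f i)))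
        atTop (𝓝 (∑ i ∈ s, (0 : X G p))) := by
      refine tendsto_finsetSum _ fun i _ => ?_
      have h4 : ∀ n : ℕ, ((av (p := p) hp0 z) ^ n) (lp.single p i (f i))
          = f i • ((av (p := p) hp0 z) ^ n) (lp.single p i (1:ℂ)) := by
        intro n
        rw [← map_smul, ← lp.single_smul, smul_eq_mul, mul_one]
      simp_rw [h4]
      have := (hs i).const_smul (f i)
      simpa using this
    simpa using this
  obtain ⟨N, hN⟩ := (Metric.tendsto_atTop.1 h3) (ε / 2) (by positivity)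
  refine ⟨N, fun n hn => ?_⟩
  have h4 := hN n hn
  rw [dist_zero_right] at h4 ⊢
  rw [dist_eq_norm] at hs2
  calc ‖((av (p := p) hp0 z) ^ n) f‖
      = ‖((av (p := p) hp0 z) ^ n) (∑ i ∈ s, lp.single p i (f i))
        - ((av (p := p) hp0 z) ^ n) (∑ i ∈ s, lp.single p i (f i) - f)‖ := by
        rw [← map_sub]; congr 2; abel
    _ ≤ ‖((av (p := p) hp0 z) ^ n) (∑ i ∈ s, lp.single p i (f i))‖
        + ‖((av (p := p) hp0 z) ^ n) (∑ i ∈ s, lp.single p i (f i) - f)‖ := norm_sub_le _ _
    _ ≤ ‖((av (p := p) hp0 z) ^ n) (∑ i ∈ s, lp.single p i (f i))‖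
        + 1 * ‖(∑ i ∈ s, lp.single p i (f i) - f)‖ := by
        gcongr
        exact (ContinuousLinearMap.le_opNorm _ _).trans
          (mul_le_mul_of_nonneg_right (norm_av_pow_le hp0 z n) (norm_nonneg _))
    _ < ε / 2 + ε / 2 := by linarith
    _ = ε := by ring

end

end Pool.Agent.Q190.ME
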